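import Pool.Agent.W133.DQ.StB
import Pool.Agent.W133.DQ.StC

set_option autoImplicit false

open scoped ContDiff
open Set Filter Topology

namespace Pool.Agent.W683.DQ

open Pool.Agent.W133.DQ

/-- bump at `c` -/
noncomputable def bu (ρ : ℝ) (hρ : 0 < ρ) (c : P2) : ContDiffBump c :=
  ⟨ρ, 2 * ρ, hρ, by linarith⟩

/-- union of bumps -/
noncomputable def Ph (ρ : ℝ) (hρ : 0 < ρ) (s : Finset P2) (p : P2) : ℝ :=
  1 - ∏ c ∈ s, (1 - bu ρ hρ c p)

variable {ρ : ℝ} (hρ : 0 < ρ)

theorem Ph_smooth (s : Finset P2) : ContDiff ℝ ∞ (Ph ρ hρ s) := by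
  unfold Ph
  exact contDiff_const.sub (contDiff_prod fun c _ => contDiff_const.sub (bu ρ hρ c).contDiff)

theorem Ph_nonneg (s : Finset P2) (p : P2) : 0 ≤ Ph ρ hρ s p := by
  unfold Ph
  have : ∏ c ∈ s, (1 - bu ρ hρ c p) ≤ 1 := by
    refine Finset.prod_le_one (fun c _ => ?_) (fun c _ => ?_)
    · have := (bu ρ hρ c).le_one (x := p); linarith
    · have := (bu ρ hρ c).nonneg (x := p); linarith
  linarith

theorem Ph_le (s : Finset P2) (p : P2) : Ph ρ hρ s p ≤ 1 := by
  unfold Ph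
  have : 0 ≤ ∏ c ∈ s, (1 - bu ρ hρ c p) := by
    refine Finset.prod_nonneg (fun c _ => ?_)
    have := (bu ρ hρ c).le_one (x := p); linarith
  linarith

theorem Ph_one (s : Finset P2) (p c : P2) (hc : c ∈ s) (h : dist p c ≤ ρ) : Ph ρ hρ s p = 1 := by
  unfold Ph
  rw [Finset.prod_eq_zero hc, sub_zero]
  rw [(bu ρ hρ c).one_of_mem_closedBall h, sub_self]

theorem Ph_insert (s : Finset P2) (p c : P2) (hc : c ∉ s)
    (h : 2 * ρ ≤ dist p c) : Ph ρ hρ (insert c s) p = Ph ρ hρ s p := by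
  unfold Ph
  rw [Finset.prod_insert hc, (bu ρ hρ c).zero_of_le_dist h, sub_zero, one_mul]

theorem Ph_compact (s : Finset P2) : HasCompactSupport (Ph ρ hρ s) := by
  have hK : IsCompact (⋃ c ∈ s, Metric.closedBall c (2 * ρ)) :=
    s.isCompact_biUnion fun c _ => isCompact_closedBall c _
  refine HasCompactSupport.intro hK fun p hp => ?_
  simp only [mem_iUnion, Metric.mem_closedBall, exists_prop, not_exists, not_and, not_le] at hp
  unfold Ph
  rw [Finset.prod_eq_one, sub_self]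
  intro c hc
  rw [(bu ρ hρ c).zero_of_le_dist (hp c hc).le, sub_zero]

theorem Ph_deriv (s : Finset P2) : ∃ C : ℝ, 0 ≤ C ∧ ∀ p, ‖fderiv ℝ (Ph ρ hρ s) p‖ ≤ C := by
  have h1 : HasCompactSupport (fderiv ℝ (Ph ρ hρ s)) := (Ph_compact hρ s).fderiv ℝ
  have h2 : Continuous (fderiv ℝ (Ph ρ hρ s)) := (Ph_smooth hρ s).continuous_fderiv (by simp)
  obtain ⟨C, hC⟩ := h2.bounded_above_of_compact_support h1
  exact ⟨C, (norm_nonneg _).trans (hC 0), hC⟩

theorem frag (hP : S_PERT) : S_FRAG := by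
  intro L hL hDB ε R hε hR
  set ρ : ℝ := ε / 8 with hρd
  have hρ : 0 < ρ := by positivity
  -- the cover
  have hK : IsCompact {p : P2 | ε / 2 ≤ ‖p‖ ∧ ‖p‖ ≤ R + 1} := by
    have : {p : P2 | ε / 2 ≤ ‖p‖ ∧ ‖p‖ ≤ R + 1} =
        Metric.closedBall (0 : P2) (R + 1) ∩ {p | ε / 2 ≤ ‖p‖} := by
      ext p; simp [and_comm]
    rw [this]
    exact (isCompact_closedBall _ _).inter_right (isClosed_le continuous_const continuous_norm)
  obtain ⟨t, htK, htf, hcov⟩ := hK.finite_cover_balls hρ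
  set T : Finset P2 := htf.toFinset with hT
  choose C hC0 hC using Ph_deriv hρ
  set CC : ℝ := ∑ s ∈ T.powerset, C s with hCC
  have hCle : ∀ s ⊆ T, C s ≤ CC := fun s hs =>
    Finset.single_le_sum (f := C) (fun s _ => hC0 s) (Finset.mem_powerset.2 hs)
  have hCC0 : 0 ≤ CC := Finset.sum_nonneg fun s _ => hC0 s
  refine ⟨min (ρ / 2) (1 / (2 * (1 + CC))), by positivity, ?_⟩
  intro h hh hsupp hd hd'
  set δ : ℝ := min (ρ / 2) (1 / (2 * (1 + CC))) with hδ
  have hδ0 : 0 < δ := by positivity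
  have hδρ : δ ≤ ρ / 2 := min_le_left _ _
  have hδC : (1 + CC) * δ ≤ 1 / 2 := by
    have h1 : δ ≤ 1 / (2 * (1 + CC)) := min_le_right _ _
    calc (1 + CC) * δ ≤ (1 + CC) * (1 / (2 * (1 + CC))) :=
          mul_le_mul_of_nonneg_left h1 (by linarith)
      _ = 1 / 2 := by field_simp
  set u : P2 → P2 := fun q => h q - q with hu
  have hus : ContDiff ℝ ∞ u := hh.1.1.sub contDiff_id
  have hu0 : ∀ p, (‖p‖ < ε ∨ R < ‖p‖) → u p = 0 := fun p hp => by
    rw [hu]; simp only; rw [hsupp p hp, sub_self]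
  -- the perturbations
  have key : ∀ s : Finset P2, s ⊆ T → ∃ H : Equiv.Perm P2, (∀ p, H p = p + Ph ρ hρ s p • u p) ∧
      H ∈ NP := by
    intro s hs
    obtain ⟨M, hM1, hM2⟩ := hP (fun q => Ph ρ hρ s q.2 • u q.2)
      (((Ph_smooth hρ s).comp contDiff_snd).smul (hus.comp contDiff_snd)) (by
        intro _ p
        have e : fderiv ℝ (fun q : P2 => Ph ρ hρ s q • u q) p =
            Ph ρ hρ s p • fderiv ℝ u p + (fderiv ℝ (Ph ρ hρ s) p).smulRight (u p) :=
          fderiv_fun_smul ((Ph_smooth hρ s).differentiable (by simp) p)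
            (hus.differentiable (by simp) p)
        change ‖fderiv ℝ (fun q : P2 => Ph ρ hρ s q • u q) p‖ ≤ 1 / 2
        rw [e]
        refine (norm_add_le _ _).trans ?_
        rw [norm_smul, ContinuousLinearMap.norm_smulRight_apply, Real.norm_eq_abs,
          abs_of_nonneg (Ph_nonneg hρ s p)]
        have h1 : Ph ρ hρ s p * ‖fderiv ℝ u p‖ ≤ 1 * δ :=
          mul_le_mul (Ph_le hρ s p) (hd' p) (norm_nonneg _) zero_le_one
        have h2 : ‖fderiv ℝ (Ph ρ hρ s) p‖ * ‖u p‖ ≤ CC * δ :=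
          mul_le_mul ((hC s p).trans (hCle s hs)) (hd p) (norm_nonneg _) hCC0
        linarith)
    refine ⟨M 0, fun p => hM1 0 p, ?_⟩
    have hsm : SmD (M 0) := by
      refine ⟨?_, hM2.comp (contDiff_const.prodMk contDiff_id)⟩
      have : (fun p => M 0 p) = fun p => p + Ph ρ hρ s p • u p := funext fun p => hM1 0 p
      rw [this]
      exact contDiff_id.add ((Ph_smooth hρ s).smul hus)
    refine ⟨⟨hsm, R, fun p hp => ?_⟩, ε, hε, fun p hp => ?_⟩
    · rw [hM1]; simp only; rw [hu0 p (Or.inr hp), smul_zero, add_zero]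
    · rw [hM1]; simp only; rw [hu0 p (Or.inl hp), smul_zero, add_zero]
  choose! H hH hHN using key
  have hL1 : L 1 = 0 := by
    have := hL 1 NP.one_mem 1 NP.one_mem
    rw [mul_one] at this
    linarith
  have main : ∀ s : Finset P2, s ⊆ T → L (H s) = 0 := by
    intro s
    induction s using Finset.induction_on with
    | empty =>
      intro hs
      have : H ∅ = 1 := by
        ext1 p
        rw [hH ∅ hs p]
        simp [Ph]
      rw [this, hL1]
    | insert c s hc ih =>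
      intro hs
      have hs' : s ⊆ T := (Finset.subset_insert c s).trans hs
      have hcT : c ∈ T := hs (Finset.mem_insert_self c s)
      have hcK : c ∈ {p : P2 | ε / 2 ≤ ‖p‖ ∧ ‖p‖ ≤ R + 1} := htK (htf.mem_toFinset.1 hcT)
      have hGN : H (insert c s) * (H s)⁻¹ ∈ NP := NP.mul_mem (hHN _ hs) (NP.inv_mem (hHN _ hs'))
      have hG : L (H (insert c s) * (H s)⁻¹) = 0 := by
        refine hDB c (3 * ρ) (by positivity) (by have := hcK.1; linarith) _
          ⟨hGN.1, 2 * ρ + δ, by linarith, fun p hp => ?_⟩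
        rw [Equiv.Perm.mul_apply]
        obtain ⟨q, hq⟩ : ∃ q, q = (H s)⁻¹ p := ⟨_, rfl⟩
        have hpq : H s q = p := by rw [hq]; exact (H s).apply_symm_apply p
        rw [← hq, hH _ hs, Ph_insert hρ s q c hc]
        · rw [← hH s hs', hpq]
        · have h1 : ‖p - q‖ ≤ δ := by
            rw [← hpq, hH s hs', add_sub_cancel_left, norm_smul, Real.norm_eq_abs,
              abs_of_nonneg (Ph_nonneg hρ s q)]
            calc Ph ρ hρ s q * ‖u q‖ ≤ 1 * δ :=
                  mul_le_mul (Ph_le hρ s q) (hd q) (norm_nonneg _) zero_le_one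
              _ = δ := one_mul δ
          have h2 : ‖p - c‖ ≤ ‖p - q‖ + ‖q - c‖ := norm_sub_le_norm_sub_add_norm_sub p q c
          rw [dist_eq_norm]
          linarith
      have e : H (insert c s) = (H (insert c s) * (H s)⁻¹) * H s := by group
      rw [e, hL _ hGN _ (hHN _ hs'), hG, ih hs', add_zero]
  have hfin : h = H T := by
    ext1 p
    rw [hH T (Finset.Subset.refl T)]
    by_cases hp : ‖p‖ < ε ∨ R < ‖p‖
    · rw [hsupp p hp, hu0 p hp, smul_zero, add_zero]
    · push Not at hp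
      have hpK : p ∈ {p : P2 | ε / 2 ≤ ‖p‖ ∧ ‖p‖ ≤ R + 1} := ⟨by linarith, by linarith⟩
      have := hcov hpK
      simp only [mem_iUnion, Metric.mem_ball, exists_prop] at this
      obtain ⟨c, hc, hpc⟩ := this
      rw [Ph_one hρ T p c (htf.mem_toFinset.2 hc) hpc.le, one_smul, hu]
      simp
  rw [hfin]
  exact main T (Finset.Subset.refl T)

end Pool.Agent.W683.DQ
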