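import Pool.Agent.W133.DQ.StF

set_option autoImplicit false

open scoped ContDiff
open Set Filter Topology

namespace Pool.Agent.W683.DQ

open Pool.Agent.W133.DQ

theorem dd_compact : CompactSpace DD := by
  have h : IsCompact {p : P2 | p.1 ^ 2 + p.2 ^ 2 ≤ 1} := by
    apply Metric.isCompact_of_isClosed_isBounded
    · exact isClosed_le (by fun_prop) continuous_const
    · refine (Metric.isBounded_closedBall (x := (0 : P2)) (r := 1)).subset fun p hp => ?_
      rw [mem_closedBall_zero_iff, Prod.norm_def, Real.norm_eq_abs, Real.norm_eq_abs]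
      have hp' : p.1 ^ 2 + p.2 ^ 2 ≤ 1 := hp
      refine max_le (abs_le_one_iff_mul_self_le_one.2 ?_) (abs_le_one_iff_mul_self_le_one.2 ?_)
      · nlinarith [sq_nonneg p.2]
      · nlinarith [sq_nonneg p.1]
  exact isCompact_iff_compactSpace.1 h

theorem nq_cont : Continuous nq := by
  unfold nq
  fun_prop

theorem ext_cont {f : Equiv.Perm DD} (hf : ExtD f) : Continuous f := by
  obtain ⟨F, hF, hF', -⟩ := hf
  rw [continuous_induced_rng]
  have : (Subtype.val ∘ f : DD → P2) = fun p : DD => F p := funext fun p => hF' p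
  rw [this]
  exact hF.continuous.comp continuous_subtype_val

theorem sep {K : Set DD} (hK : IsClosed K) (g : DD → ℝ) (hg : Continuous g)
    (h : ∀ p ∈ K, 0 < g p) : ∃ ε : ℝ, 0 < ε ∧ ∀ p ∈ K, ε ≤ g p := by
  haveI := dd_compact
  rcases K.eq_empty_or_nonempty with h0 | h0
  · exact ⟨1, one_pos, fun p hp => by rw [h0] at hp; exact absurd hp (notMem_empty p)⟩
  · obtain ⟨x, hx, hx2⟩ := hK.isCompact.exists_isMinOn h0 hg.continuousOn
    exact ⟨g x, h x hx, fun p hp => hx2 hp⟩

theorem gnorm (hB : S_BDRY) : S_GNORM := by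
  constructor
  · rintro a ha n ⟨hn, ε, hε, hne⟩
    refine ⟨GG.mul_mem (GG.mul_mem ha hn) (GG.inv_mem ha), ?_⟩
    have hai := GG.inv_mem ha
    have hc : Continuous (a⁻¹ : Equiv.Perm DD) := ext_cont hai.1
    obtain ⟨δ, hδ, hδ'⟩ := sep (K := {p | nq ((a⁻¹ : Equiv.Perm DD) p) ≤ 1 - ε})
      (isClosed_le (nq_cont.comp hc) continuous_const) (fun p => 1 - nq p)
      (continuous_const.sub nq_cont) (fun p hp => by
        have h1 : nq p ≤ 1 := p.2
        have h2 : nq p ≠ 1 := fun h => by
          have h3 := (hB _ hai p).1 h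
          have h4 : nq ((a⁻¹ : Equiv.Perm DD) p) ≤ 1 - ε := hp
          linarith
        have := lt_of_le_of_ne h1 h2
        linarith)
    refine ⟨δ, hδ, fun p hp => ?_⟩
    have h5 : 1 - ε < nq ((a⁻¹ : Equiv.Perm DD) p) := by
      by_contra h6
      have := hδ' p (not_lt.1 h6)
      linarith
    rw [Equiv.Perm.mul_apply, Equiv.Perm.mul_apply, hne _ h5]
    exact a.apply_symm_apply p
  · rintro a ha n ⟨hn, ε, hε, hne⟩
    refine ⟨GG.mul_mem (GG.mul_mem ha hn) (GG.inv_mem ha), ?_⟩
    have hai := GG.inv_mem ha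
    have hc : Continuous (a⁻¹ : Equiv.Perm DD) := ext_cont hai.1
    obtain ⟨δ, hδ, hδ'⟩ := sep (K := {p | ε ≤ nq ((a⁻¹ : Equiv.Perm DD) p)})
      (isClosed_le continuous_const (nq_cont.comp hc)) nq nq_cont (fun p hp => by
        have h1 : 0 ≤ nq p := by unfold nq; positivity
        have h2 : nq p ≠ 0 := fun h => by
          have h3 : p = dO := by
            unfold nq at h
            have e1 : p.1.1 = 0 := by nlinarith [sq_nonneg p.1.1, sq_nonneg p.1.2]
            have e2 : p.1.2 = 0 := by nlinarith [sq_nonneg p.1.1, sq_nonneg p.1.2]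
            exact Subtype.ext (Prod.ext e1 e2)
          have h4 : ε ≤ nq ((a⁻¹ : Equiv.Perm DD) p) := hp
          rw [h3, hai.2.2] at h4
          have h5 : nq dO = 0 := by simp [nq, dO]
          linarith
        exact lt_of_le_of_ne h1 (Ne.symm h2))
    refine ⟨δ, hδ, fun p hp => ?_⟩
    have h5 : nq ((a⁻¹ : Equiv.Perm DD) p) < ε := by
      by_contra h6
      have := hδ' p (not_lt.1 h6)
      linarith
    rw [Equiv.Perm.mul_apply, Equiv.Perm.mul_apply, hne _ h5]
    exact a.apply_symm_apply p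

end Pool.Agent.W683.DQ
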