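import Pool.Agent.W133.DQ.StF

set_option autoImplicit false

open scoped ContDiff
open Set Filter Topology

namespace Pool.Agent.W683.DQ

open Pool.Agent.W133.DQ

/-- smooth increasing periodic maps give elements of `CD` -/
theorem mkCD (φ φ' : ℝ → ℝ) (hs : ContDiff ℝ ∞ φ) (hd : ∀ x, HasDerivAt φ (φ' x) x)
    (hpos : ∀ x, 0 < φ' x) (hp : ∀ x, φ (x + 1) = φ x + 1) :
    ∃ X : Equiv.Perm ℝ, CD X ∧ ∀ x, X x = φ x := by
  have hmono : StrictMono φ := strictMono_of_deriv_pos fun x => by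
    rw [(hd x).deriv]; exact hpos x
  have hpn : ∀ (n : ℕ) (x : ℝ), φ (x + n) = φ x + n := by
    intro n
    induction n with
    | zero => intro x; simp
    | succ n ih => intro x; push_cast; rw [← add_assoc, hp, ih]; ring
  have hsurj : Function.Surjective φ := by
    intro y
    obtain ⟨n, hn⟩ := exists_nat_ge (|y| + |φ 0|)
    have h1 : y ≤ φ (0 + n) := by
      rw [hpn]
      have := le_abs_self y
      have := neg_abs_le (φ 0)
      linarith
    have h2 : φ (0 - n) ≤ y := by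
      have := hpn n (0 - n)
      rw [sub_add_cancel] at this
      have := neg_abs_le y
      have := le_abs_self (φ 0)
      linarith
    obtain ⟨x, -, hx⟩ := intermediate_value_Icc (a := (0 : ℝ) - n) (b := 0 + n)
      (by have : (0 : ℝ) ≤ n := Nat.cast_nonneg n
          linarith) hs.continuous.continuousOn ⟨h2, h1⟩
    exact ⟨x, hx⟩
  set e := (hmono.orderIsoOfSurjective φ hsurj) with he
  have hinv : ContDiff ℝ ∞ (fun x => e.toHomeomorph.symm x) :=
    e.toHomeomorph.contDiff_symm_deriv (f' := φ') (fun x => (hpos x).ne') (fun x => hd x) hs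
  refine ⟨e.toEquiv, ⟨⟨hs, hinv, hmono⟩, hp⟩, fun x => rfl⟩

theorem cos_lip (x y : ℝ) : |Real.cos x - Real.cos y| ≤ |x - y| := by
  have h := Real.lipschitzWith_cos.dist_le_mul x y
  simpa [Real.dist_eq] using h

/-- the two maps -/
theorem maps (s : ℝ) (hs1 : |s| ≤ 1) : ∃ X : Equiv.Perm ℝ, CD X ∧
    ∀ x, X x = x + (1 - s * Real.cos (2 * Real.pi * x)) / 20 := by
  refine mkCD (fun x => x + (1 - s * Real.cos (2 * Real.pi * x)) / 20)
    (fun x => 1 + s * Real.sin (2 * Real.pi * x) * (2 * Real.pi) / 20) ?_ ?_ ?_ ?_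
  · fun_prop
  · intro x
    have h1 : HasDerivAt (fun x : ℝ => 2 * Real.pi * x) (2 * Real.pi) x := by
      simpa using (hasDerivAt_id x).const_mul (2 * Real.pi)
    have h2 := h1.cos
    have h3 := (((h2.const_mul s).const_sub 1).div_const 20)
    have h4 := (hasDerivAt_id' x).add h3
    exact h4.congr_deriv (by ring)
  · intro x
    have h1 : |s * Real.sin (2 * Real.pi * x)| ≤ 1 := by
      rw [abs_mul]
      calc |s| * |Real.sin (2 * Real.pi * x)| ≤ 1 * 1 :=
            mul_le_mul hs1 (Real.abs_sin_le_one _) (abs_nonneg _) zero_le_one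
        _ = 1 := one_mul 1
    have h2 := (abs_le.1 h1).1
    have h3 := Real.pi_lt_four
    have h4 := Real.pi_pos
    have : 0 < 1 + s * Real.sin (2 * Real.pi * x) * (2 * Real.pi) / 20 := by nlinarith
    exact this
  · intro x
    have : Real.cos (2 * Real.pi * (x + 1)) = Real.cos (2 * Real.pi * x) := by
      rw [mul_add, mul_one, Real.cos_add_two_pi]
    simp only [this]
    ring

/-- `M` is a lift of `g`, with boundary map `X` -/
def Lft (M : Equiv.Perm HH) (g : Equiv.Perm DD) (X : Equiv.Perm ℝ) : Prop :=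
  M ∈ BB ∧ g ∈ GG ∧ (∀ p, g (pii p) = pii (M p)) ∧ ∀ x, M (bp x) = bp (X x)

theorem lft_mul {M N : Equiv.Perm HH} {g h : Equiv.Perm DD} {X Y : Equiv.Perm ℝ}
    (h1 : Lft M g X) (h2 : Lft N h Y) : Lft (M * N) (g * h) (X * Y) := by
  refine ⟨BB.mul_mem h1.1 h2.1, GG.mul_mem h1.2.1 h2.2.1, fun p => ?_, fun x => ?_⟩
  · rw [Equiv.Perm.mul_apply, h2.2.2.1, h1.2.2.1]; rfl
  · rw [Equiv.Perm.mul_apply, h2.2.2.2, h1.2.2.2]; rfl

theorem lft_one : Lft 1 1 1 := ⟨BB.one_mem, GG.one_mem, fun _ => rfl, fun _ => rfl⟩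

theorem lft_pow {M : Equiv.Perm HH} {g : Equiv.Perm DD} {X : Equiv.Perm ℝ}
    (h1 : Lft M g X) (n : ℕ) : Lft (M ^ n) (g ^ n) (X ^ n) := by
  induction n with
  | zero => simpa using lft_one
  | succ n ih => rw [pow_succ, pow_succ, pow_succ]; exact lft_mul ih h1

theorem lb (hH : S_HOMOG) (hQ : S_QT) (hE : S_EXTC) (hJ : S_JB) : S_LB := by
  obtain ⟨f, hf, hfM⟩ := hQ
  obtain ⟨J, hJ1, -, -, -, hJ5⟩ := hJ
  obtain ⟨ψ, hψ, C, hC⟩ := hH (Equiv.Perm DD) GG f hf
  refine ⟨ψ, hψ, fun hhom => ?_⟩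
  have mk : ∀ X : Equiv.Perm ℝ, CD X → ∃ M g, Lft M g X := by
    intro X hX
    obtain ⟨M, hM, ε, hε, h⟩ := hE X hX
    refine ⟨M, J M, hM, (hJ1 M hM).1, hJ5 M hM, fun x => ?_⟩
    apply Subtype.ext
    rw [h (bp x) (by simp only [bp]; linarith)]
    rfl
  obtain ⟨X1, hX1, hX1'⟩ := maps 1 (by simp)
  obtain ⟨X2, hX2, hX2'⟩ := maps (-1) (by simp)
  obtain ⟨M1, g1, L1⟩ := mk X1 hX1
  obtain ⟨M2, g2, L2⟩ := mk X2 hX2
  have hfL : ∀ (M : Equiv.Perm HH) (g : Equiv.Perm DD) (X : Equiv.Perm ℝ), Lft M g X →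
      f g = X 0 := by
    intro M g X hL
    rw [hfM M hL.1 g hL.2.1 hL.2.2.1, hL.2.2.2 0]
    rfl
  have hψn : ∀ (M : Equiv.Perm HH) (g : Equiv.Perm DD) (X : Equiv.Perm ℝ), Lft M g X →
      ∀ n : ℕ, |n * ψ g - (X ^ n) 0| ≤ C := by
    intro M g X hL n
    have h1 := hC (g ^ n) (GG.pow_mem hL.2.1 n)
    rw [hfL _ _ _ (lft_pow hL n)] at h1
    have h2 := hψ.2 g hL.2.1 n
    rw [zpow_natCast] at h2
    rw [h2] at h1
    simpa using h1
  have hzero : ∀ (M : Equiv.Perm HH) (g : Equiv.Perm DD) (X : Equiv.Perm ℝ), Lft M g X →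
      (∀ n : ℕ, |(X ^ n) 0| ≤ 1) → ψ g = 0 := by
    intro M g X hL hb
    by_contra hne
    obtain ⟨n, hn⟩ := exists_nat_gt ((C + 1) / |ψ g|)
    have hpos : 0 < |ψ g| := abs_pos.2 hne
    rw [div_lt_iff₀ hpos] at hn
    have h1 := hψn M g X hL n
    have h2 := hb n
    have h3 : |(n : ℝ) * ψ g| ≤ C + 1 := by
      have e : (n : ℝ) * ψ g = (n * ψ g - (X ^ n) 0) + (X ^ n) 0 := by ring
      rw [e]
      exact (abs_add_le _ _).trans (add_le_add h1 h2)
    rw [abs_mul, Nat.abs_cast] at h3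
    linarith
  have z1 : ψ g1 = 0 := by
    refine hzero M1 g1 X1 L1 fun n => ?_
    have : ∀ n : ℕ, (X1 ^ n) 0 = 0 := by
      intro n
      induction n with
      | zero => rfl
      | succ n ih =>
        rw [pow_succ', Equiv.Perm.mul_apply, ih, hX1']
        simp
    rw [this n]; simp
  have z2 : ψ g2 = 0 := by
    refine hzero M2 g2 X2 L2 fun n => ?_
    have : ∀ n : ℕ, 0 ≤ (X2 ^ n) 0 ∧ (X2 ^ n) 0 ≤ 1 / 2 := by
      intro n
      induction n with
      | zero => simp
      | succ n ih =>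
        rw [pow_succ', Equiv.Perm.mul_apply]
        constructor
        · rw [hX2']
          have := Real.neg_one_le_cos (2 * Real.pi * (X2 ^ n) 0)
          linarith [ih.1]
        · have h1 := hX2.1.2.2.monotone ih.2
          have h2 : X2 (1 / 2) = 1 / 2 := by
            rw [hX2']
            have : Real.cos (2 * Real.pi * (1 / 2)) = -1 := by
              rw [show 2 * Real.pi * (1 / 2) = Real.pi by ring, Real.cos_pi]
            rw [this]; norm_num
          rw [h2] at h1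
          exact h1
    have h := this n
    rw [abs_of_nonneg h.1]
    linarith [h.2]
  have L12 := lft_mul L1 L2
  have z12 : ψ (g1 * g2) = 0 := by
    rw [hhom g1 L1.2.1 g2 L2.2.1, z1, z2, add_zero]
  have hstep : ∀ x, x + 1 / 20 ≤ (X1 * X2) x := by
    intro x
    rw [Equiv.Perm.mul_apply, hX1' (X2 x)]
    have h1 := cos_lip (2 * Real.pi * X2 x) (2 * Real.pi * x)
    have h2 : |2 * Real.pi * X2 x - 2 * Real.pi * x|
        = 2 * Real.pi * ((1 + Real.cos (2 * Real.pi * x)) / 20) := by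
      rw [hX2' x]
      have hc := Real.neg_one_le_cos (2 * Real.pi * x)
      have e : 2 * Real.pi * (x + (1 - -1 * Real.cos (2 * Real.pi * x)) / 20) - 2 * Real.pi * x
          = 2 * Real.pi * ((1 + Real.cos (2 * Real.pi * x)) / 20) := by ring
      rw [e, abs_of_nonneg]
      have : 0 ≤ (1 + Real.cos (2 * Real.pi * x)) / 20 := by linarith
      have := Real.pi_pos
      positivity
    rw [h2] at h1
    have h3 := (abs_le.1 h1).2
    have h4 : X2 x = x + (1 - -1 * Real.cos (2 * Real.pi * x)) / 20 := hX2' x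
    have h5 := Real.pi_lt_four
    have h6 := Real.cos_le_one (2 * Real.pi * x)
    have h7 := Real.neg_one_le_cos (2 * Real.pi * x)
    have h8 := Real.pi_pos
    have h9 : 2 * Real.pi * ((1 + Real.cos (2 * Real.pi * x)) / 20) ≤ 1 := by nlinarith
    generalize Real.cos (2 * Real.pi * X2 x) = A at *
    rw [h4]
    linarith
  have hn : ∀ n : ℕ, (n : ℝ) / 20 ≤ ((X1 * X2) ^ n) 0 := by
    intro n
    induction n with
    | zero => simp
    | succ n ih =>
      rw [pow_succ', Equiv.Perm.mul_apply]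
      have := hstep (((X1 * X2) ^ n) 0)
      rw [Nat.cast_succ]
      linarith
  obtain ⟨n, hn1⟩ := exists_nat_gt (20 * C)
  have h1 := hψn _ _ _ L12 n
  rw [z12, mul_zero, zero_sub, abs_neg] at h1
  have h2 := hn n
  have h3 := le_abs_self (((X1 * X2) ^ n) 0)
  linarith

end Pool.Agent.W683.DQ
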