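import Pool.Agent.W133.DQ.StF

set_option autoImplicit false

open scoped ContDiff
open Set Filter Topology

namespace Pool.Agent.W683.DQ

open Pool.Agent.W133.DQ

theorem pii_eq {p q : HH} (h : pii p = pii q) :
    p.1.2 = q.1.2 ∧ ∃ n : ℤ, q.1.1 - p.1.1 = n := by
  have h1 : Real.exp p.1.2 * Real.cos (2 * Real.pi * p.1.1)
      = Real.exp q.1.2 * Real.cos (2 * Real.pi * q.1.1) :=
    congrArg (fun z : DD => z.1.1) h
  have h2 : Real.exp p.1.2 * Real.sin (2 * Real.pi * p.1.1)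
      = Real.exp q.1.2 * Real.sin (2 * Real.pi * q.1.1) :=
    congrArg (fun z : DD => z.1.2) h
  have e1 := Real.sin_sq_add_cos_sq (2 * Real.pi * p.1.1)
  have e2 := Real.sin_sq_add_cos_sq (2 * Real.pi * q.1.1)
  have p1 := Real.exp_pos p.1.2
  have p2 := Real.exp_pos q.1.2
  generalize Real.cos (2 * Real.pi * p.1.1) = c1 at *
  have hsq : Real.exp p.1.2 ^ 2 = Real.exp q.1.2 ^ 2 := by
    calc Real.exp p.1.2 ^ 2 = Real.exp p.1.2 ^ 2 * (Real.sin (2 * Real.pi * p.1.1) ^ 2 + c1 ^ 2) := by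
          rw [e1, mul_one]
      _ = (Real.exp p.1.2 * Real.sin (2 * Real.pi * p.1.1)) ^ 2 + (Real.exp p.1.2 * c1) ^ 2 := by ring
      _ = (Real.exp q.1.2 * Real.sin (2 * Real.pi * q.1.1)) ^ 2
          + (Real.exp q.1.2 * Real.cos (2 * Real.pi * q.1.1)) ^ 2 := by rw [h1, h2]
      _ = Real.exp q.1.2 ^ 2 * (Real.sin (2 * Real.pi * q.1.1) ^ 2
          + Real.cos (2 * Real.pi * q.1.1) ^ 2) := by ring
      _ = Real.exp q.1.2 ^ 2 := by rw [e2, mul_one]
  have hexp : Real.exp p.1.2 = Real.exp q.1.2 :=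
    (pow_left_inj₀ p1.le p2.le (by norm_num)).1 hsq
  have hy : p.1.2 = q.1.2 := Real.exp_injective hexp
  refine ⟨hy, ?_⟩
  rw [hexp] at h1 h2
  have h1' := mul_left_cancel₀ p2.ne' h1
  have h2' := mul_left_cancel₀ p2.ne' h2
  have hc : Real.cos (2 * Real.pi * q.1.1 - 2 * Real.pi * p.1.1) = 1 := by
    rw [Real.cos_sub]
    have h3 : Real.cos (2 * Real.pi * p.1.1) = Real.cos (2 * Real.pi * q.1.1) := by
      have h4 : Real.exp p.1.2 * Real.cos (2 * Real.pi * p.1.1)
          = Real.exp q.1.2 * Real.cos (2 * Real.pi * q.1.1) :=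
        congrArg (fun z : DD => z.1.1) h
      rw [hexp] at h4
      exact mul_left_cancel₀ p2.ne' h4
    rw [h3, h2']
    nlinarith [e2]
  obtain ⟨n, hn⟩ := (Real.cos_eq_one_iff _).1 hc
  refine ⟨n, ?_⟩
  have hpi := Real.pi_pos
  have : 2 * Real.pi * (q.1.1 - p.1.1 - n) = 0 := by linarith
  have := (mul_eq_zero.1 this).resolve_left (by positivity)
  linarith

theorem hh_conn : PreconnectedSpace HH := by
  have h : Convex ℝ {p : P2 | p.2 ≤ 0} :=
    convex_halfSpace_le (IsLinearMap.mk (fun _ _ => rfl) (fun _ _ => rfl)) 0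
  exact Subtype.preconnectedSpace h.isPreconnected

theorem lift_unique {k k' : HH → HH} (hk : Continuous k) (hk' : Continuous k')
    (h : ∀ p, pii (k p) = pii (k' p)) : ∃ n : ℤ, ∀ p, (k' p).1.1 = (k p).1.1 + n := by
  have := hh_conn
  choose n hn using fun p => (pii_eq (h p)).2
  have hc : Continuous fun p => ((n p : ℤ) : ℝ) := by
    simp only [← hn]
    fun_prop
  have hcn : Continuous n := by
    rw [Int.isClosedEmbedding_coe_real.isEmbedding.continuous_iff]
    exact hc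
  refine ⟨n (bp 0), fun p => ?_⟩
  have h1 := hn p
  have h2 : n p = n (bp 0) := PreconnectedSpace.constant this hcn
  rw [← h2]
  linarith

/-- weak lift data -/
def WD (g : Equiv.Perm DD) (k : HH → HH) (a : ℝ → ℝ) : Prop :=
  Continuous k ∧ (∀ p, pii (k p) = g (pii p)) ∧
    ∀ x ε : ℝ, 0 < ε → ∃ l : ℝ, ∀ p : HH, p.1.1 = x → p.1.2 ≤ l → |(k p).1.1 - a x| < ε

theorem wd_indep {g : Equiv.Perm DD} {k k' : HH → HH} {a a' : ℝ → ℝ} (h : WD g k a)
    (h' : WD g k' a') : (k (bp 0)).1.1 - a 0 = (k' (bp 0)).1.1 - a' 0 := by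
  obtain ⟨n, hn⟩ := lift_unique h.1 h'.1 (fun p => (h.2.1 p).trans (h'.2.1 p).symm)
  have key : a' 0 = a 0 + n := by
    by_contra hne
    have hpos : 0 < |a' 0 - (a 0 + n)| := abs_pos.2 (sub_ne_zero.2 hne)
    obtain ⟨l, hl⟩ := h.2.2 0 (|a' 0 - (a 0 + n)| / 2) (by positivity)
    obtain ⟨l', hl'⟩ := h'.2.2 0 (|a' 0 - (a 0 + n)| / 2) (by positivity)
    set p : HH := ⟨(0, min (min l l') 0), min_le_right _ _⟩ with hp
    have h1 := hl p rfl (le_trans (min_le_left _ _) (min_le_left _ _))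
    have h2 := hl' p rfl (le_trans (min_le_left _ _) (min_le_right _ _))
    rw [hn p] at h2
    have h3 : |a' 0 - (a 0 + n)| ≤ |(k p).1.1 - a 0| + |(k p).1.1 + n - a' 0| := by
      have e : a' 0 - (a 0 + n) = ((k p).1.1 - a 0) - ((k p).1.1 + n - a' 0) := by ring
      rw [e]
      exact abs_sub _ _
    linarith
  rw [hn, key]
  ring

theorem per_bound {φ : ℝ → ℝ} (hm : Monotone φ) (hp : ∀ x, φ (x + 1) = φ x + 1) (x : ℝ) :
    |φ x - x - φ 0| ≤ 1 := by
  have hpn : ∀ (n : ℕ) (x : ℝ), φ (x + n) = φ x + n := by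
    intro n
    induction n with
    | zero => intro x; simp
    | succ n ih => intro x; push_cast; rw [← add_assoc, hp, ih]; ring
  have hpz : ∀ n : ℤ, φ n = φ 0 + n := by
    intro n
    obtain ⟨m, rfl | rfl⟩ := n.eq_nat_or_neg
    · have := hpn m 0
      rw [zero_add] at this
      simpa using this
    · have := hpn m (-m)
      rw [neg_add_cancel] at this
      push_cast
      linarith
  have h1 := Int.floor_le x
  have h2 := (Int.lt_floor_add_one x).le
  have h3 := hm h1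
  have h4 := hm h2
  rw [hp, hpz] at h4
  rw [hpz] at h3
  rw [abs_le]
  constructor <;> linarith

theorem qt (hLG : S_LG) : S_QT := by
  classical
  choose k a hk using hLG
  -- full data give weak data
  have wd : ∀ g (hg : g ∈ GG), WD g (k g hg) (a g hg) := by
    intro g hg
    obtain ⟨h1, h2, h3, h4, h5, h6, h7, h8, h9, h10⟩ := hk g hg
    refine ⟨h1, h2, fun x ε hε => ?_⟩
    obtain ⟨l, hl⟩ := h9 ε hε
    exact ⟨l, fun p hp hpl => by rw [← hp]; exact hl p hpl⟩
  have wdc : ∀ g (hg : g ∈ GG) h (hh : h ∈ GG),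
      WD (g * h) (k g hg ∘ k h hh) (a g hg ∘ a h hh) := by
    intro g hg h hh
    obtain ⟨h1, h2, h3, h4, h5, h6, h7, h8, h9, h10⟩ := hk g hg
    obtain ⟨h1', h2', h3', h4', h5', h6', h7', h8', h9', h10'⟩ := hk h hh
    refine ⟨h1.comp h1', fun p => ?_, fun x ε hε => ?_⟩
    · rw [Function.comp_apply, h2, h2']; rfl
    · obtain ⟨l1, hl1⟩ := h9 (ε / 2) (by positivity)
      obtain ⟨η, hη, hη'⟩ := Metric.continuous_iff.1 h4 (a h hh x) (ε / 2) (by positivity)
      obtain ⟨l2, hl2⟩ := h9' η hη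
      obtain ⟨l3, hl3⟩ := h10' l1
      refine ⟨min l2 l3, fun p hp hpl => ?_⟩
      have b1 := hl1 (k h hh p) (hl3 p (hpl.trans (min_le_right _ _)))
      have b2 := hl2 p (hpl.trans (min_le_left _ _))
      rw [hp] at b2
      have b3 := hη' (k h hh p).1.1 (by rw [Real.dist_eq]; exact b2)
      rw [Real.dist_eq] at b3
      simp only [Function.comp_apply]
      have e : (k g hg (k h hh p)).1.1 - a g hg (a h hh x) =
          ((k g hg (k h hh p)).1.1 - a g hg (k h hh p).1.1) +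
          (a g hg (k h hh p).1.1 - a g hg (a h hh x)) := by ring
      rw [e]
      exact (abs_add_le _ _).trans_lt (by linarith)
  refine ⟨fun g => if hg : g ∈ GG then (k g hg (bp 0)).1.1 - a g hg 0 else 0, ⟨2, ?_⟩, ?_⟩
  · intro g hg h hh
    have hgh : g * h ∈ GG := GG.mul_mem hg hh
    simp only [dif_pos hg, dif_pos hh, dif_pos hgh]
    rw [wd_indep (wd (g * h) hgh) (wdc g hg h hh)]
    obtain ⟨h1, h2, h3, h4, h5, h6, h7, h8, h9, h10⟩ := hk g hg
    obtain ⟨h1', h2', h3', h4', h5', h6', h7', h8', h9', h10'⟩ := hk h hh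
    have e1 : k h hh (bp 0) = bp (k h hh (bp 0)).1.1 := by
      apply Subtype.ext
      exact Prod.ext rfl (h8' (bp 0) rfl)
    have hper : ∀ x, (k g hg (bp (x + 1))).1.1 = (k g hg (bp x)).1.1 + 1 := by
      intro x
      have : bp (x + 1) = hT 1 (bp x) := rfl
      rw [this, h3]
      rfl
    have c1 := per_bound h7 hper (k h hh (bp 0)).1.1
    have c2 := per_bound h5 h6 (a h hh 0)
    rw [← e1] at c1
    simp only [Function.comp_apply]
    have e : (k g hg (k h hh (bp 0))).1.1 - a g hg (a h hh 0) - ((k g hg (bp 0)).1.1 - a g hg 0)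
        - ((k h hh (bp 0)).1.1 - a h hh 0)
        = ((k g hg (k h hh (bp 0))).1.1 - (k h hh (bp 0)).1.1 - (k g hg (bp 0)).1.1)
          - (a g hg (a h hh 0) - a h hh 0 - a g hg 0) := by ring
    rw [e]
    exact (abs_sub _ _).trans (by linarith)
  · intro M hM g hg hMg
    simp only [dif_pos hg]
    have w : WD g M id := by
      obtain ⟨⟨F, hF, hF'⟩, -, -, -, l, hl⟩ := hM
      refine ⟨?_, fun p => (hMg p).symm, fun x ε hε => ⟨l, fun p hp hpl => ?_⟩⟩
      · rw [continuous_induced_rng]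
        have : (Subtype.val ∘ M : HH → P2) = fun p : HH => F p := funext fun p => hF' p
        rw [this]
        exact hF.continuous.comp continuous_subtype_val
      · rw [hl p hpl, hp]
        simpa using hε
    rw [wd_indep (wd g hg) w]
    simp

end Pool.Agent.W683.DQ
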